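import Pool.Agent.Lib.MP_ea7a64_al_h50.Vdef
import Pool.Agent.Lib.MP_ea7a64_al_h64.Cover

/-!
# Tasks F1-F4 of MP_ea7a64_al
-/

set_option autoImplicit false
set_option linter.unusedSectionVars false
set_option linter.unusedVariables false

open IsLocalRing RingTheory.Sequence

namespace EA7

variable {R : Type} [CommRing R] [IsNoetherianRing R] [IsLocalRing R]

/-- Task F1. -/
theorem exists_indec (P : ModuleCat.{0} R → Prop)
    (hsub : ∀ M : ModuleCat.{0} R, P M → ∀ N₁ N₂ : Submodule R M, IsCompl N₁ N₂ →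
      P (ModuleCat.of R N₁))
    (M : ModuleCat.{0} R) (hfin : Module.Finite R M) (hP : P M) (x w : R)
    (hx : StabZero x M) (hw : ¬ StabZero w M) :
    ∃ Y : ModuleCat.{0} R, Module.Finite R Y ∧
      (Nontrivial Y ∧ ∀ N₁ N₂ : Submodule R Y, IsCompl N₁ N₂ → N₁ = ⊥ ∨ N₂ = ⊥) ∧
      P Y ∧ StabZero x Y ∧ ¬ StabZero w Y := by
  classical
  have : IsNoetherian R M := isNoetherian_of_isNoetherianRing_of_finite R M
  obtain ⟨C, ⟨N, hNC, hNw⟩, hmax⟩ := set_has_maximal_iff_noetherian.2 (inferInstance : IsNoetherian R M)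
    {C : Submodule R M | ∃ N : Submodule R M, IsCompl N C ∧ ¬ StabZero w N}
    ⟨⊥, ⊤, isCompl_top_bot, fun h => hw (h.equiv Submodule.topEquiv)⟩
  refine ⟨ModuleCat.of R N, ?_, ⟨?_, ?_⟩, hsub M hP N C hNC, ?_, hNw⟩
  · exact inferInstanceAs (Module.Finite R N)
  · by_contra h
    rw [not_nontrivial_iff_subsingleton] at h
    have : Subsingleton N := h
    exact hNw (StabZero.of_smul_eq_zero (fun y => Subsingleton.elim _ _))
  · intro A B hAB
    change Submodule R N at A B
    by_contra hne
    push Not at hne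
    obtain ⟨hA, hB⟩ := hne
    -- one of the summands is not stably annihilated
    have hor : ¬ StabZero w A ∨ ¬ StabZero w B := by
      by_contra h
      push Not at h
      exact hNw ((h.1.prod h.2).equiv (Submodule.prodEquivOfIsCompl A B hAB))
    have key : ∀ A B : Submodule R N, IsCompl A B → B ≠ ⊥ → ¬ StabZero w A → False := by
      intro A B hAB hB hAw
      have hinj : Function.Injective N.subtype := Subtype.val_injective
      have hsup : A.map N.subtype ⊔ B.map N.subtype = N := by
        rw [← Submodule.map_sup, hAB.sup_eq_top, Submodule.map_top, Submodule.range_subtype]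
      have hdis : Disjoint (A.map N.subtype) (B.map N.subtype) := by
        rw [disjoint_iff, ← Submodule.map_inf _ hinj, hAB.inf_eq_bot, Submodule.map_bot]
      have hd2 : Disjoint (A.map N.subtype) (B.map N.subtype ⊔ C) := by
        apply hdis.disjoint_sup_right_of_disjoint_sup_left
        rw [hsup]
        exact hNC.disjoint
      have hc2 : IsCompl (A.map N.subtype) (B.map N.subtype ⊔ C) := by
        refine ⟨hd2, ?_⟩
        rw [codisjoint_iff, ← sup_assoc, hsup]
        exact hNC.sup_eq_top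
      refine hmax (B.map N.subtype ⊔ C) ⟨_, hc2, fun h => hAw (h.equiv ?_)⟩ ?_
      · exact (Submodule.equivMapOfInjective N.subtype hinj A).symm
      · refine lt_of_le_of_ne le_sup_right (fun h => ?_)
        have h1 : B.map N.subtype ≤ C := by rw [h]; exact le_sup_left
        have h2 : B.map N.subtype ≤ N := le_sup_right.trans hsup.le
        have h3 : B.map N.subtype = ⊥ := by
          rw [eq_bot_iff]
          exact (le_inf h2 h1).trans (hNC.inf_eq_bot).le
        apply hB
        rw [eq_bot_iff]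
        intro b hb
        have h4 : N.subtype b ∈ B.map N.subtype := ⟨b, hb, rfl⟩
        rw [h3, Submodule.mem_bot] at h4
        rw [Submodule.mem_bot]
        exact Subtype.ext h4
    rcases hor with h | h
    · exact key A B hAB hB h
    · exact key B A hAB.symm hA h
  · exact hx.of_retract N.subtype (Submodule.projectionOnto N C hNC)
      (fun y => Submodule.projectionOnto_apply_left hNC y)

/-- Task F2 (d = 0). -/
theorem dim_zero (hk : ¬ Countable (ResidueField R))
    (hprin : ∀ a : R, maximalIdeal R ≠ Ideal.span {a}) (f : ℕ → ModuleCat.{0} R)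
    (hf : ∀ M : ModuleCat.{0} R, Module.Finite R M →
      (Nontrivial M ∧ ∀ N₁ N₂ : Submodule R M, IsCompl N₁ N₂ → N₁ = ⊥ ∨ N₂ = ⊥) →
      ∃ n, Nonempty (M ≃ₗ[R] f n)) : False := by
  classical
  refine not_countable_cover hk (fun n => if maximalIdeal R ≤ Module.annihilator R (f n) then ⊥
    else Module.annihilator R (f n)) ?_ ?_
  · intro n
    by_cases h : maximalIdeal R ≤ Module.annihilator R (f n)
    · rw [if_pos h]
      intro h2
      apply hprin 0
      rw [Ideal.span_singleton_eq_bot.2 rfl]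
      exact le_bot_iff.1 h2
    · rw [if_neg h]
      exact h
  · intro a ha
    have hle : Ideal.span {a} ≤ maximalIdeal R := (Ideal.span_singleton_le_iff_mem _).2 ha
    have hne : (Ideal.span {a} : Ideal R) ≠ ⊤ := fun h =>
      (maximalIdeal.isMaximal R).ne_top (top_le_iff.1 (h ▸ hle))
    obtain ⟨n, ⟨e⟩⟩ := hf (ModuleCat.of R (R ⧸ Ideal.span {a}))
      (inferInstanceAs (Module.Finite R (R ⧸ Ideal.span {a})))
      ⟨Ideal.Quotient.nontrivial_iff.2 hne, by
        intro N₁ N₂ h
        change Submodule R (R ⧸ Ideal.span {a}) at N₁ N₂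
        have key : ∀ N₁ N₂ : Submodule R (R ⧸ Ideal.span {a}), IsCompl N₁ N₂ → ∀ r : R, IsUnit r →
            Ideal.Quotient.mk (Ideal.span {a}) r ∈ N₁ → N₂ = ⊥ := by
          intro N₁ N₂ h r hr hmem
          obtain ⟨u, rfl⟩ := hr
          have h1 : (1 : R ⧸ Ideal.span {a}) ∈ N₁ := by
            have := N₁.smul_mem (↑u⁻¹ : R) hmem
            have e1 : (↑u⁻¹ : R) • Ideal.Quotient.mk (Ideal.span {a}) (u : R) = 1 := by
              change Ideal.Quotient.mk (Ideal.span {a}) ((↑u⁻¹ : R) * (u : R)) = 1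
              simp
            rwa [e1] at this
          have h2 : N₁ = ⊤ := by
            rw [eq_top_iff]
            rintro y -
            obtain ⟨z, rfl⟩ := Ideal.Quotient.mk_surjective y
            have := N₁.smul_mem z h1
            have e1 : z • (1 : R ⧸ Ideal.span {a}) = Ideal.Quotient.mk (Ideal.span {a}) z := by
              change Ideal.Quotient.mk (Ideal.span {a}) (z * 1) = _
              simp
            rwa [e1] at this
          have h3 := h.inf_eq_bot
          rw [h2, top_inf_eq] at h3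
          exact h3
        have h1 : (1 : R ⧸ Ideal.span {a}) ∈ N₁ ⊔ N₂ := by
          rw [h.sup_eq_top]; trivial
        obtain ⟨e1, he1, e2, he2, h12⟩ := Submodule.mem_sup.1 h1
        obtain ⟨r1, rfl⟩ := Ideal.Quotient.mk_surjective e1
        obtain ⟨r2, rfl⟩ := Ideal.Quotient.mk_surjective e2
        have h3 : r1 + r2 - 1 ∈ Ideal.span {a} := by
          rw [← Ideal.Quotient.eq_zero_iff_mem, map_sub, map_add, map_one, sub_eq_zero]
          exact h12
        have h4 : IsUnit (r1 + r2) := by
          by_contra hu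
          have h5 : r1 + r2 ∈ maximalIdeal R := (mem_maximalIdeal _).2 hu
          have h6 : (1 : R) ∈ maximalIdeal R := by
            have h7 := (maximalIdeal R).sub_mem h5 (hle h3)
            rwa [sub_sub_cancel] at h7
          exact (maximalIdeal.isMaximal R).ne_top ((Ideal.eq_top_iff_one _).2 h6)
        rcases isUnit_or_isUnit_of_isUnit_add h4 with h5 | h5
        · exact Or.inr (key N₁ N₂ h r1 h5 he1)
        · exact Or.inl (key N₂ N₁ h.symm r2 h5 he2)⟩
    have hann : Module.annihilator R (f n) = Ideal.span {a} := by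
      rw [← e.annihilator_eq]
      exact Ideal.annihilator_quotient
    refine ⟨n, ?_⟩
    simp only [hann]
    rw [if_neg]
    · exact Ideal.mem_span_singleton_self a
    · intro h
      exact hprin a (le_antisymm h hle)

/-- Task F3. N = image of m^j in R/p (R-submodule of R ⧸ p). -/
theorem exists_N (p : Ideal R) (hp : p.IsPrime) (hpm : p ≠ maximalIdeal R) (w : R)
    (hw : w ∈ maximalIdeal R) (j : ℕ)
    (hj : maximalIdeal R ^ (j + 1) ≤ Ideal.span {w} * maximalIdeal R ^ j ⊔ p) :
    ∃ N : FM R, Nontrivial N.C ∧ (∀ r : R, r ∉ p → IsSMulRegular N.C r) ∧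
      (∀ x ∈ p, ∀ n : N.C, x • n = 0) ∧ w ∉ p ∧
      (∀ y ∈ maximalIdeal R, ∀ n : N.C, ∃ n', y • n = w • n') := by
  have hple : p ≤ maximalIdeal R := le_maximalIdeal hp.ne_top
  have hnot : ∀ n : ℕ, ¬ maximalIdeal R ^ n ≤ p := by
    intro n h
    cases n with
    | zero =>
      rw [pow_zero, Ideal.one_eq_top, top_le_iff] at h
      exact hp.ne_top h
    | succ n =>
      exact hpm (le_antisymm hple (hp.le_of_pow_le h))
  let N : Submodule R (R ⧸ p) := Submodule.map (Submodule.mkQ p) (maximalIdeal R ^ j : Ideal R)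
  have hmk : ∀ y ∈ maximalIdeal R ^ j, Submodule.mkQ p y ∈ N := fun y hy => ⟨y, hy, rfl⟩
  refine ⟨⟨N⟩, ?_, ?_, ?_, ?_, ?_⟩
  · obtain ⟨y, hy, hyp⟩ := Set.not_subset.1 (hnot j)
    refine ⟨⟨⟨Submodule.mkQ p y, hmk y hy⟩, 0, fun h => hyp ?_⟩⟩
    have h1 : Submodule.mkQ p y = 0 := congrArg Subtype.val h
    rwa [Submodule.mkQ_apply, Submodule.Quotient.mk_eq_zero] at h1
  · intro r hr a b hab
    obtain ⟨a, a', ha', rfl⟩ := a
    obtain ⟨b, b', hb', rfl⟩ := b
    apply Subtype.ext
    have h1 : r • Submodule.mkQ p a' = r • Submodule.mkQ p b' := congrArg Subtype.val hab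
    rw [← map_smul, ← map_smul, ← sub_eq_zero, ← map_sub, Submodule.mkQ_apply,
      Submodule.Quotient.mk_eq_zero, smul_eq_mul, smul_eq_mul, ← mul_sub] at h1
    have h2 := (hp.mem_or_mem h1).resolve_left hr
    change Submodule.mkQ p a' = Submodule.mkQ p b'
    rw [← sub_eq_zero, ← map_sub, Submodule.mkQ_apply, Submodule.Quotient.mk_eq_zero]
    exact h2
  · rintro x hx ⟨n, n', hn', rfl⟩
    apply Subtype.ext
    change x • Submodule.mkQ p n' = 0
    rw [← map_smul, Submodule.mkQ_apply, Submodule.Quotient.mk_eq_zero]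
    exact p.mul_mem_right _ hx
  · intro hwp
    apply hnot (j + 1)
    refine hj.trans (sup_le ?_ le_rfl)
    exact Ideal.mul_le_left.trans ((Ideal.span_singleton_le_iff_mem _).2 hwp)
  · rintro y hy ⟨n, n', hn', rfl⟩
    have h1 : y * n' ∈ Ideal.span {w} * maximalIdeal R ^ j ⊔ p := by
      apply hj
      rw [pow_succ']
      exact Ideal.mul_mem_mul hy hn'
    obtain ⟨a, ha, b, hb, hab⟩ := Submodule.mem_sup.1 h1
    obtain ⟨z, hz, rfl⟩ := Ideal.mem_span_singleton_mul.1 ha
    refine ⟨⟨Submodule.mkQ p z, hmk z hz⟩, ?_⟩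
    apply Subtype.ext
    change y • Submodule.mkQ p n' = w • Submodule.mkQ p z
    rw [← map_smul, ← map_smul, ← sub_eq_zero, ← map_sub, Submodule.mkQ_apply,
      Submodule.Quotient.mk_eq_zero]
    have : y • n' - w • z = b := by
      rw [smul_eq_mul, smul_eq_mul, ← hab]; ring
    rw [this]
    exact hb

/-- powers of `k` -/
theorem exists_pow_equiv (n : ℕ) :
    Nonempty ((Fin n → (kk R).C) ≃ₗ[R] ((kk R).pow n).C) := by
  induction n with
  | zero =>
    exact ⟨{ toFun := fun _ => PUnit.unit
             invFun := fun _ => 0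
             map_add' := fun _ _ => rfl
             map_smul' := fun _ _ => rfl
             left_inv := fun _ => Subsingleton.elim _ _
             right_inv := fun _ => rfl }⟩
  | succ n ih =>
    obtain ⟨e⟩ := ih
    exact ⟨(Fin.consLinearEquiv R (fun _ : Fin (n + 1) => (kk R).C)).symm.trans
      ((LinearEquiv.refl R (kk R).C).prodCongr e)⟩

/-- Task F4. -/
theorem exists_pow_quot (N : FM R) (hN : Nontrivial N.C) (w : R) (hw : w ∈ maximalIdeal R)
    (hmN : ∀ y ∈ maximalIdeal R, ∀ n : N.C, ∃ n', y • n = w • n') :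
    ∃ (e : ℕ) (q : N.C →ₗ[R] ((kk R).pow e).C), 1 ≤ e ∧ Function.Surjective q ∧
      ∀ x, q x = 0 ↔ ∃ y, x = w • y := by
  obtain ⟨n, π, hπ, hmin⟩ := exists_min_cover (R := R) N.C
  obtain ⟨e⟩ := exists_pow_equiv (R := R) n
  let ρ : (Fin n → R) →ₗ[R] (Fin n → (kk R).C) :=
    LinearMap.pi (fun i => (Algebra.linearMap R (ResidueField R)) ∘ₗ LinearMap.proj i)
  have hρ : ∀ v, ρ v = 0 ↔ ∀ i, v i ∈ maximalIdeal R := by
    intro v
    rw [funext_iff]
    refine forall_congr' (fun i => ?_)
    change algebraMap R (ResidueField R) (v i) = 0 ↔ _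
    rw [IsLocalRing.ResidueField.algebraMap_eq, residue_eq_zero_iff]
  have hρs : Function.Surjective ρ := by
    intro v
    choose u hu using fun i => residue_surjective (R := R) (v i)
    refine ⟨u, ?_⟩
    funext i
    exact hu i
  obtain ⟨q, hq⟩ := (SES.of_surj π hπ).desc (e.toLinearMap ∘ₗ ρ) (fun k => by
    rw [LinearMap.comp_apply, (hρ ((LinearMap.ker π).subtype k)).2 (fun i => hmin _ k.2 i),
      map_zero])
  refine ⟨n, q, ?_, ?_, ?_⟩
  · by_contra h
    have h0 : n = 0 := by omega
    subst h0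
    obtain ⟨a, b, hab⟩ := hN
    obtain ⟨a, rfl⟩ := hπ a
    obtain ⟨b, rfl⟩ := hπ b
    exact hab (congrArg π (Subsingleton.elim _ _))
  · intro v
    obtain ⟨u, hu⟩ := hρs (e.symm v)
    refine ⟨π u, ?_⟩
    rw [hq, LinearMap.comp_apply, hu]
    simp
  · intro x
    constructor
    · intro hx
      obtain ⟨v, rfl⟩ := hπ x
      rw [hq, LinearMap.comp_apply] at hx
      have hv : ρ v = 0 := by simpa using hx
      rw [hρ] at hv
      have h1 : π v = ∑ i, v i • π (Pi.single i 1) := by
        conv_lhs => rw [pi_eq_sum_univ' v]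
        rw [map_sum]
        refine Finset.sum_congr rfl (fun i _ => ?_)
        rw [map_smul]
      choose y hy using fun i => hmN (v i) (hv i) (π (Pi.single i 1))
      refine ⟨∑ i, y i, ?_⟩
      rw [h1, Finset.smul_sum]
      exact Finset.sum_congr rfl (fun i _ => hy i)
    · rintro ⟨y, rfl⟩
      obtain ⟨v, rfl⟩ := hπ y
      rw [← map_smul, hq, LinearMap.comp_apply, (hρ _).2, map_zero]
      intro i
      exact (maximalIdeal R).mul_mem_right _ hw

end EA7
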